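import Pool.Agent.Y101.Th.Pair
import Pool.Agent.Y101.Th.Gen
import Pool.Agent.Y116.UV.TB

/-!
# Perfectness of the motivic pairing over finite fields and trilinear forms
-/

set_option autoImplicit false

open CategoryTheory AlgebraicGeometry Pool.Agent.Y116.UV Pool.Agent.Y101.Th

namespace Pool.Agent.Results.MP_a9d3bd_ag.TrilinearForms

variable {k : Type} [Field k] {T : Motivic k}

lemma all_dim (hT : IsMotivic T) (d : ℕ) :
    (∀ X : Sch k, SmProj X → topologicalKrullDim X.left ≤ d → Perfect T X) ↔
      ∀ X : Sch k, FT True X → topologicalKrullDim X.left ≤ d → Perfect T X :=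
  ⟨hT.alterations d, fun h X hX hd => h X hX.ft hd⟩

/-- **Perfectness of the motivic pairing and trilinear forms.** Let `k` be a finite field. For all
`d`, the cup product pairings are perfect for the smooth projective schemes of dimension at most `d`
over `k` if and only if the pairing of the motivic homology with the motivic cohomology with compact
supports is perfect for the smooth affine cubic hypersurfaces `t(x, y, z) = 1` for all trilinear
forms `t` one of whose blocks of variables has at most `d + 2` variables; it is perfect for the forms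
`t` one of whose blocks has at most three variables. If `k` is a prime field, it is enough to consider
the forms with the coefficients `0` and `1`. -/
theorem result [Finite k] (hT : IsMotivic T) :
    (∀ d : ℕ,
      (∀ X : Sch k, SmProj X → topologicalKrullDim X.left ≤ d → Perfect T X) ↔
      ∀ (a b c : ℕ) (t : Fin a → Fin b → Fin c → k), (a ≤ d + 2 ∨ b ≤ d + 2 ∨ c ≤ d + 2) →
        Perfect T (hypS t)) ∧
    ((∀ X : Sch k, SmProj X → Perfect T X) ↔
      ∀ (a b c : ℕ) (t : Fin a → Fin b → Fin c → k), Perfect T (hypS t)) ∧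
    ((Nat.card k).Prime → ∀ d : ℕ,
      (∀ X : Sch k, SmProj X → topologicalKrullDim X.left ≤ d → Perfect T X) ↔
      ∀ (a b : ℕ) (H : Finset (Fin a × Fin b × Fin (d + 2))), Perfect T (tripS k H)) ∧
    ∀ (a b c : ℕ) (t : Fin a → Fin b → Fin c → k), (a ≤ 3 ∨ b ≤ 3 ∨ c ≤ 3) →
      Perfect T (hypS t) := by
  have hP := bnd_perfect hT
  have key : ∀ d : ℕ,
      (∀ X : Sch k, SmProj X → topologicalKrullDim X.left ≤ d → Perfect T X) ↔
      ∀ (a b c : ℕ) (t : Fin a → Fin b → Fin c → k), (a ≤ d + 2 ∨ b ≤ d + 2 ∨ c ≤ d + 2) →
        Perfect T (hypS t) := fun d => (all_dim hT d).trans (gen_dim hP d)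
  refine ⟨key, ⟨?_, ?_⟩, fun hk d => (all_dim hT d).trans (gen_prime (int_surj hk) hP d),
    gen_curves hP hT.curves⟩
  · intro h a b c t
    exact (key a).mp (fun X hX _ => h X hX) a b c t (Or.inl (by omega))
  · intro h X hX
    exact (gen_all hP.toUni).mpr h X hX.ft

end Pool.Agent.Results.MP_a9d3bd_ag.TrilinearForms
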